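import Pool.Agent.U339.CH.Iter
import Pool.Agent.W40.Ch.A10
import Pool.Agent.H934R2.Ch.Fin1

/-!
# Chamberland's map: the basin of an attracting cycle has a proportion strictly between 0 and 1
-/

set_option autoImplicit false

namespace Pool.Agent.U339.CH

open Set MeasureTheory Filter Topology
open Pool.Agent.H934R2.Ch (f AttrPt Attracts)
open Pool.Agent.W40.Ch hiding Inv

theorem lt_one_of_disj {A U : Set ℝ} (hU : Pool.Agent.W40.Ch.Inv U) (hUp : volume (U ∩ Ioi 1) ≠ 0)
    (h : Disjoint A U) {D : ℝ} (hD : Tendsto (bb A) atTop (𝓝 D)) : D < 1 := by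
  obtain ⟨D', hD'⟩ := dens_exists hU
  have h1 := dens_pos hU hUp hD'
  have h2 : D + D' ≤ 1 := le_of_tendsto' (hD.add hD') fun k => bb_disj hU.1 h k
  linarith

/-- the basin of an attracting cycle has a proportion less than one -/
theorem lt_one {y : ℝ} (hy : AttrPt y) {D : ℝ} (hD : Tendsto (bb (Basin y)) atTop (𝓝 D)) : D < 1 := by
  obtain ⟨a, ha, hga⟩ := Pool.Agent.H934R2.Ch.exists_a2
  have h1 : AttrPt 1 := Pool.Agent.H934R2.Ch.known_attr ha hga (Or.inl rfl)
  have h2 : AttrPt a := Pool.Agent.H934R2.Ch.known_attr ha hga (Or.inr (Or.inr (Or.inl rfl)))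
  by_cases d1 : Disjoint (Basin y) (Basin 1)
  · exact lt_one_of_disj (basin_inv h1.2.1) (basin_pos h1) d1 hD
  by_cases d2 : Disjoint (Basin y) (Basin a)
  · exact lt_one_of_disj (basin_inv h2.2.1) (basin_pos h2) d2 hD
  exfalso
  obtain ⟨x1, hx1, hx1'⟩ := Set.not_disjoint_iff.1 d1
  obtain ⟨x2, hx2, hx2'⟩ := Set.not_disjoint_iff.1 d2
  obtain ⟨i, hi⟩ := same_cycle hy.2.1 h1.2.1 hx1.2 hx1'.2
  obtain ⟨j, hj⟩ := same_cycle hy.2.1 h2.2.1 hx2.2 hx2'.2
  set p := Function.minimalPeriod f y with hp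
  have hp0 : 0 < p := hy.2.1
  have hij : i ≤ j + p * i := by
    have : 1 * i ≤ p * i := Nat.mul_le_mul_right i hp0
    omega
  have e : f^[j + p * i - i] 1 = a := by
    rw [hi, ← Function.iterate_add_apply, Nat.sub_add_cancel hij, Function.iterate_add_apply]
    have h3 : Function.IsPeriodicPt f (p * i) y :=
      (Function.isPeriodicPt_minimalPeriod f y).mul_const i
    rw [h3.eq, ← hj]
  have hf1 : f 1 = 2 := Pool.Agent.H934R2.Ch.f_one
  have hf2 : f 2 = 1 := Pool.Agent.H934R2.Ch.f_two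
  rcases iter_known (z := 1) (by rw [hf1, hf2]) (j + p * i - i) with h | h
  · rw [h] at e
    linarith [ha.1]
  · rw [h, hf1] at e
    linarith [ha.2]

end Pool.Agent.U339.CH
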