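import Pool.Agent.U339.CH.Step

/-!
# Chamberland's map: the deviation of invariant sets in intervals of polynomial length
-/

set_option autoImplicit false

namespace Pool.Agent.U339.CH

open Real Set MeasureTheory Filter Topology
open Pool.Agent.H934R2.Ch (f df hasDerivAt_f continuous_f continuous_df)
open Pool.Agent.W40.Ch hiding Inv

theorem real_le_one (m : ℕ) (A : Set ℝ) : volume.real (cell m ∩ A) ≤ 1 := by
  rw [← cell_vol m]
  exact measureReal_mono inter_subset_left (fin_of_sub (cell_sub m))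

theorem iter (K : ℕ) : ∃ C : ℝ, 1 ≤ C ∧ ∀ (B : Set ℝ) (D : ℝ), HD B D → ∀ m : ℕ, 1 ≤ m →
    volume.real (cell m ∩ {x | bad B D (C * (m : ℝ) ^ (-(2 * K / 3) : ℝ)) (C * t m) x}) ≤
      C * (m : ℝ) ^ (-(1 / 6) : ℝ) := by
  induction K with
  | zero =>
    refine ⟨2, by norm_num, fun B D _ m _ => ?_⟩
    have e : {x | bad B D (2 * (m : ℝ) ^ (-(2 * ((0 : ℕ) : ℝ) / 3) : ℝ)) (2 * t m) x} = ∅ := by
      ext x
      simp only [mem_ofPred_eq, mem_empty_iff_false, iff_false]
      rintro ⟨a, b, -, -, h3, h4, -⟩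
      norm_num at h3
      linarith
    rw [e, inter_empty, measureReal_empty]
    positivity
  | succ K ih =>
    obtain ⟨C, hC1, hC⟩ := ih
    have h3K : (1 : ℝ) ≤ 3 ^ K := one_le_pow₀ (by norm_num)
    set C' : ℝ := 10 ^ 9 + 3 ^ K * C + 3 * C with hC'
    have hKC : C ≤ 3 ^ K * C := by nlinarith
    refine ⟨C', by linarith, fun B D h m hm => ?_⟩
    by_cases hm0 : 191102976 ≤ m
    swap
    · refine (real_le_one m _).trans ?_
      have hm1 : (1 : ℝ) ≤ m := by exact_mod_cast hm
      have h1 : (1 / 24 : ℝ) ≤ (m : ℝ) ^ (-(1 / 6) : ℝ) := by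
        have h2 : ((24 : ℝ) ^ (6 : ℕ)) ^ (-(1 / 6) : ℝ) ≤ (m : ℝ) ^ (-(1 / 6) : ℝ) := by
          apply Real.rpow_le_rpow_of_nonpos (by linarith) _ (by norm_num)
          have : (m : ℝ) ≤ 191102976 := by exact_mod_cast (by omega : m ≤ 191102976)
          norm_num
          linarith
        have h3 : ((24 : ℝ) ^ (6 : ℕ)) ^ (-(1 / 6) : ℝ) = 1 / 24 := by
          rw [← Real.rpow_natCast, ← Real.rpow_mul (by norm_num)]
          norm_num
        linarith
      nlinarith
    · obtain ⟨u, hu24, hu6, hq, hθ, hut⟩ := u_exists hm0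
      have hok := ok (by omega : 13824 ≤ m)
      have hmpos : (0 : ℝ) < m := by exact_mod_cast (by omega : 0 < m)
      have hu0 : 0 < u := by linarith
      have ht0 := t_nonneg m
      have hpu : 0 < 1 / u := by positivity
      -- the bad set one scale up
      set W : Set ℝ := ⋃ k : ℕ, cell k ∩ {x | bad B D (C * (k : ℝ) ^ (-(2 * K / 3) : ℝ)) (C * t k) x}
        with hW
      have hWm : MeasurableSet W :=
        MeasurableSet.iUnion fun k => (cell_meas k).inter (bad_open B D _ _).measurableSet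
      have hWk : ∀ k : ℕ, 1 ≤ k → bb W k ≤ C * (k : ℝ) ^ (-(1 / 6) : ℝ) := by
        intro k hk
        refine le_trans ?_ (hC B D h k hk)
        unfold bb
        refine measureReal_mono ?_ (inter_fin _ _)
        rintro x ⟨hx, hxk⟩
        obtain ⟨j, hj1, hj2⟩ := mem_iUnion.1 hx
        have : j = k := by
          by_contra hne
          exact Set.disjoint_left.1 (cells_disj hne) hj1 hxk
        subst this
        exact ⟨hxk, hj2⟩
      have hsub : cell m ∩ {x | bad B D (C' * (m : ℝ) ^ (-(2 * ((K + 1 : ℕ) : ℝ) / 3) : ℝ)) (C' * t m) x} ⊆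
          (Ico (m : ℝ) (m + 1 / u) ∪ Ioc ((m : ℝ) + 1 - 1 / u) (m + 1)) ∪ (cell m ∩ f ⁻¹' W) := by
        rintro x ⟨hxc, hx⟩
        by_cases h1 : x < m + 1 / u
        · left; left; exact ⟨hxc.1, h1⟩
        by_cases h2 : m + 1 - 1 / u < x
        · left; right; exact ⟨h2, hxc.2.le⟩
        right
        rw [not_lt] at h1 h2
        refine ⟨hxc, ?_⟩
        have hst := step_pt h hm0 (by rw [hθ]; exact h1) (by rw [hθ]; exact h2)
          (by nlinarith : 10 ^ 9 * t m ≤ C' * t m) hx
        have hfx0 : 0 ≤ f x := le_trans (by linarith [hxc.1]) (f_lb (x := x) (by linarith [hxc.1]))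
        have hk : m / 2 ≤ ⌊f x⌋₊ := by
          have h3 : x / 2 ≤ f x := f_lb (by linarith [hxc.1])
          have h4 := Nat.lt_floor_add_one (f x)
          have h5 : (m : ℝ) < 2 * (⌊f x⌋₊ + 1) := by linarith [hxc.1]
          have h6 : m < 2 * (⌊f x⌋₊ + 1) := by exact_mod_cast h5
          omega
        refine mem_iUnion.2 ⟨⌊f x⌋₊, mem_cell_floor hfx0, bad_mono ?_ ?_ hst⟩
        · -- lengths
          have h3 := pow_third (p := 2 * K / 3) (by positivity) (by omega : 2 ≤ m) hk
          have h4 : (3 : ℝ) ^ (2 * (K : ℝ) / 3) ≤ 3 ^ K := by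
            rw [← Real.rpow_natCast]
            apply Real.rpow_le_rpow_of_exponent_le (by norm_num)
            have : (0 : ℝ) ≤ K := Nat.cast_nonneg K
            linarith
          have hp : 0 ≤ (m : ℝ) ^ (-(2 * (K : ℝ) / 3)) := by positivity
          have h5 : m * qq m * (C' * (m : ℝ) ^ (-(2 * ((K + 1 : ℕ) : ℝ) / 3) : ℝ)) =
              C' * (m : ℝ) ^ (-(2 * (K : ℝ) / 3)) := by
            unfold qq
            have e : (m : ℝ) ^ (-(2 * (K : ℝ) / 3)) =
                m * (m : ℝ) ^ (-(1 / 3) : ℝ) * (m : ℝ) ^ (-(2 * ((K + 1 : ℕ) : ℝ) / 3) : ℝ) := by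
              nth_rewrite 2 [← Real.rpow_one (m : ℝ)]
              rw [← Real.rpow_add hmpos, ← Real.rpow_add hmpos]
              congr 1
              push_cast
              ring
            rw [e]
            ring
          rw [h5]
          calc C * ((⌊f x⌋₊ : ℕ) : ℝ) ^ (-(2 * (K : ℝ) / 3))
              ≤ C * (3 ^ (2 * (K : ℝ) / 3) * (m : ℝ) ^ (-(2 * (K : ℝ) / 3))) :=
                mul_le_mul_of_nonneg_left h3 (by linarith)
            _ ≤ C * (3 ^ K * (m : ℝ) ^ (-(2 * (K : ℝ) / 3))) := by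
                apply mul_le_mul_of_nonneg_left _ (by linarith)
                exact mul_le_mul_of_nonneg_right h4 hp
            _ = (3 ^ K * C) * (m : ℝ) ^ (-(2 * (K : ℝ) / 3)) := by ring
            _ ≤ C' * (m : ℝ) ^ (-(2 * (K : ℝ) / 3)) :=
                mul_le_mul_of_nonneg_right (by linarith) hp
        · have h3 := t_third (by omega : 2 ≤ m) hk
          rw [hθ]
          have h4 : C * t ⌊f x⌋₊ ≤ C * (3 * t m) := mul_le_mul_of_nonneg_left h3 (by linarith)
          have h5 : (3 * C + 18) * t m ≤ C' * t m := mul_le_mul_of_nonneg_right (by linarith) ht0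
          nlinarith
      have hfin : volume ((Ico (m : ℝ) (m + 1 / u) ∪ Ioc ((m : ℝ) + 1 - 1 / u) (m + 1)) ∪
          (cell m ∩ f ⁻¹' W)) ≠ ⊤ := by
        refine ((measure_union_le _ _).trans_lt (ENNReal.add_lt_top.2 ⟨?_, (inter_fin _ _).lt_top⟩)).ne
        refine (measure_union_le _ _).trans_lt (ENNReal.add_lt_top.2 ⟨?_, ?_⟩)
        · rw [Real.volume_Ico]; exact ENNReal.ofReal_lt_top
        · rw [Real.volume_Ioc]; exact ENNReal.ofReal_lt_top
      refine (measureReal_mono hsub hfin).trans ?_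
      refine (measureReal_union_le _ _).trans ?_
      have g1 : volume.real (Ico (m : ℝ) (m + 1 / u) ∪ Ioc ((m : ℝ) + 1 - 1 / u) (m + 1)) ≤
          2 * (1 / u) := by
        refine (measureReal_union_le _ _).trans ?_
        rw [Real.volume_real_Ico_of_le (by linarith), Real.volume_real_Ioc_of_le (by linarith)]
        linarith
      have g2 := up_bound hWm hok.1
      have g3 : P (bb W) m ≤ C * (3 * (1 / u)) := by
        rw [← P_const (C * (3 * (1 / u))) m]
        apply P_mono
        intro k hk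
        refine (hWk k (by omega)).trans ?_
        apply mul_le_mul_of_nonneg_left _ (by linarith)
        have e := pow_third (p := 1 / 6) (m := m) (k := k) (by norm_num) (by omega) hk
        have e2 : (3 : ℝ) ^ (1 / 6 : ℝ) ≤ 3 := by
          calc (3 : ℝ) ^ (1 / 6 : ℝ) ≤ (3 : ℝ) ^ (1 : ℝ) :=
                Real.rpow_le_rpow_of_exponent_le (by norm_num) (by norm_num)
            _ = 3 := Real.rpow_one 3
        rw [← hθ]
        exact e.trans (mul_le_mul_of_nonneg_right e2 (by positivity))
      have g4 : qq m ≤ 1 / u := by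
        rw [hq]
        apply one_div_le_one_div_of_le hu0
        nlinarith
      have g5 := hok.2
      rw [hθ]
      have g6 : (24 + 3 * C) * (1 / u) ≤ C' * (1 / u) :=
        mul_le_mul_of_nonneg_right (by linarith) hpu.le
      nlinarith

end Pool.Agent.U339.CH
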