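import Pool.Agent.TH237.CH.Rate

/-!
# Chamberland's map: invariant sets in subintervals of the cells

The signed deviation `s B D a b = ∫_a^b (1_B - D)`, its bound in the middle part of a cell, in a cell, and in
long intervals.
-/

set_option autoImplicit false

namespace Pool.Agent.U339.CH

open Real Set MeasureTheory Filter Topology
open Pool.Agent.H934R2.Ch (f df hasDerivAt_f continuous_f continuous_df)
open Pool.Agent.W40.Ch

/-- the signed deviation of `B` from the density `D` in `(a, b)` -/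
noncomputable def s (B : Set ℝ) (D a b : ℝ) : ℝ := ∫ t in a..b, (B.indicator (fun _ => (1 : ℝ)) t - D)

theorem ii {B : Set ℝ} (hB : MeasurableSet B) (D a b : ℝ) :
    IntervalIntegrable (fun t => B.indicator (fun _ => (1 : ℝ)) t - D) volume a b := by
  apply IntervalIntegrable.sub _ intervalIntegrable_const
  rw [intervalIntegrable_iff]
  exact (integrableOn_const (by rw [uIoc]; exact measure_Ioc_lt_top.ne)).indicator hB

theorem s_add {B : Set ℝ} (hB : MeasurableSet B) (D a b c : ℝ) : s B D a b + s B D b c = s B D a c :=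
  intervalIntegral.integral_add_adjacent_intervals (ii hB D a b) (ii hB D b c)

theorem s_eq {B : Set ℝ} (hB : MeasurableSet B) (D : ℝ) {a b : ℝ} (h : a ≤ b) :
    s B D a b = volume.real (B ∩ Ioo a b) - D * (b - a) := by
  unfold s
  rw [intervalIntegral.integral_sub _ intervalIntegrable_const]
  · rw [intervalIntegral.integral_const, smul_eq_mul, mul_comm (b - a) D]
    congr 1
    rw [intervalIntegral.integral_of_le h, integral_Ioc_eq_integral_Ioo]
    rw [setIntegral_indicator hB, setIntegral_const, smul_eq_mul, mul_one, inter_comm]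
  · rw [intervalIntegrable_iff]
    exact (integrableOn_const (by rw [uIoc]; exact measure_Ioc_lt_top.ne)).indicator hB

theorem vol_le {B : Set ℝ} {a b : ℝ} (h : a ≤ b) : volume.real (B ∩ Ioo a b) ≤ b - a := by
  rw [← Real.volume_real_Ioo_of_le h]
  exact measureReal_mono inter_subset_right measure_Ioo_lt_top.ne

theorem s_abs {B : Set ℝ} (hB : MeasurableSet B) {D : ℝ} (hD0 : 0 ≤ D) (hD1 : D ≤ 1) {a b : ℝ}
    (h : a ≤ b) : |s B D a b| ≤ b - a := by
  rw [s_eq hB D h]
  have h1 := vol_le (B := B) h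
  have h2 : 0 ≤ volume.real (B ∩ Ioo a b) := measureReal_nonneg
  have h3 : 0 ≤ D * (b - a) := mul_nonneg hD0 (by linarith)
  have h4 : D * (b - a) ≤ 1 * (b - a) := mul_le_mul_of_nonneg_right hD1 (by linarith)
  rw [abs_le]
  constructor <;> linarith

/-- the pieces of the middle part are short -/
theorem piece_le {m k : ℕ} {q : ℝ} (h : OK m q) :
    volume.real (mid m q ∩ f ⁻¹' cell k) ≤ 1 / (m * q) := by
  have hmq : 0 < (m : ℝ) * q := lt_of_lt_of_le one_pos h.mq
  have hA : MeasurableSet (mid m q ∩ f ⁻¹' cell k) := measurableSet_Icc.inter (pre_meas (cell_meas k))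
  have himg : f '' (mid m q ∩ f ⁻¹' cell k) ⊆ cell k := by
    rintro _ ⟨x, hx, rfl⟩
    exact hx.2
  have h1 := (vol_image hA ((f_injOn h.q0.le h.mq).mono inter_subset_left)
    (inter_subset_left : _ ⊆ Icc ((m : ℝ) + q) (m + 1 - q))
    (fin_of_sub (himg.trans (cell_sub k))) hmq.le (C := 2 * ((m : ℝ) + 1) + 3) (fun x hx => by
      have hq := h.q0
      have h3 : (m : ℝ) + q ≤ x := hx.1.1
      have h4 : x ≤ (m : ℝ) + 1 - q := hx.1.2
      have h5 : (0 : ℝ) ≤ m := Nat.cast_nonneg m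
      refine ⟨df_mid_abs h.q0.le h.mq hx.1.1 hx.1.2, (df_abs_le (by linarith)).trans (by linarith)⟩)).1
  have h2 : volume.real (f '' (mid m q ∩ f ⁻¹' cell k)) ≤ 1 := by
    rw [← cell_vol k]
    exact measureReal_mono himg (fin_of_sub (cell_sub k))
  rw [le_div_iff₀ hmq]
  linarith

/-- between two points of a cell -/
theorem between {m k : ℕ} {q x y z : ℝ} (h : OK m q) (hx : m + q ≤ x) (hxy : x ≤ y) (hyz : y ≤ z)
    (hz : z ≤ m + 1 - q) (hfx : f x ∈ cell k) (hfz : f z ∈ cell k) : ⌊f y⌋₊ = k := by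
  have e1 := f_expand h.q0.le h.mq hx hxy (by linarith)
  have e2 := f_expand h.q0.le h.mq (by linarith : (m : ℝ) + q ≤ y) hyz hz
  have hmq : 0 < (m : ℝ) * q := lt_of_lt_of_le one_pos h.mq
  have g1 : 0 ≤ (m : ℝ) * q * (y - x) := mul_nonneg hmq.le (by linarith)
  have g2 : 0 ≤ (m : ℝ) * q * (z - y) := mul_nonneg hmq.le (by linarith)
  have hc : f y ∈ cell k := by
    rcases neg_one_pow_eq_or ℝ m with h | h <;> rw [h] at e1 e2
    · exact ⟨by linarith [hfx.1], by linarith [hfz.2]⟩
    · exact ⟨by linarith [hfz.1], by linarith [hfx.2]⟩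
  exact Nat.floor_eq_on_Ico k (f y) hc

/-- **The middle part of a cell.** -/
theorem inner_dev {B : Set ℝ} (hB : Pool.Agent.W40.Ch.Inv B) {D : ℝ} (hD0 : 0 ≤ D) (hD1 : D ≤ 1) {m : ℕ} {q : ℝ}
    (h : OK m q) {δ : ℝ} (hδ : ∀ k, m / 2 ≤ k → |bb B k - D| ≤ δ) {a b : ℝ} (ha : m + 2 * q ≤ a)
    (hab : a ≤ b) (hb : b ≤ m + 1 - 2 * q) :
    |s B D a b| ≤ (b - a) * (3 * rr m q + δ) + 2 / (m * q) := by
  have hq := h.q0
  have hm1 := h.m1
  have hmq : 0 < (m : ℝ) * q := lt_of_lt_of_le one_pos h.mq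
  have hIm : Ioo a b ⊆ mid m q := fun x hx => ⟨by linarith [hx.1], by linarith [hx.2]⟩
  have hIc : Ioo a b ⊆ cell m := hIm.trans (mid_sub_cell hq)
  have hIB : MeasurableSet (Ioo a b ∩ f ⁻¹' B) := measurableSet_Ioo.inter (pre_meas hB.1)
  have hm0 : (0 : ℝ) < m := by exact_mod_cast hm1
  have e1 : volume.real (B ∩ Ioo a b) = ∑ k ∈ Finset.range (2 * m + 3),
      volume.real ((cell m ∩ f ⁻¹' cell k) ∩ (Ioo a b ∩ f ⁻¹' B)) := by
    rw [← decomp m hIB]
    congr 1
    ext x
    simp only [mem_inter_iff, mem_preimage]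
    constructor
    · rintro ⟨h1, h2⟩
      have hx0 : 0 < x := lt_of_lt_of_le hm0 (hIc h2).1
      exact ⟨hIc h2, h2, (hB.2 x hx0).1 h1⟩
    · rintro ⟨h1, h2, h3⟩
      have hx0 : 0 < x := lt_of_lt_of_le hm0 h1.1
      exact ⟨(hB.2 x hx0).2 h3, h2⟩
  have e2 : b - a = ∑ k ∈ Finset.range (2 * m + 3),
      volume.real ((cell m ∩ f ⁻¹' cell k) ∩ Ioo a b) := by
    rw [← decomp m measurableSet_Ioo, inter_eq_right.2 hIc, Real.volume_real_Ioo_of_le hab]
  have hterm : ∀ k ∈ Finset.range (2 * m + 3),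
      |volume.real ((cell m ∩ f ⁻¹' cell k) ∩ (Ioo a b ∩ f ⁻¹' B)) -
        D * volume.real ((cell m ∩ f ⁻¹' cell k) ∩ Ioo a b)| ≤
      volume.real ((cell m ∩ f ⁻¹' cell k) ∩ Ioo a b) * (3 * rr m q + δ) +
        ((if k = ⌊f a⌋₊ then 1 / (m * q) else 0) + (if k = ⌊f b⌋₊ then 1 / (m * q) else 0)) := by
    intro k _
    have hc0 : 0 < 1 / ((m : ℝ) * q) := by positivity
    have hi1 : (0 : ℝ) ≤ if k = ⌊f a⌋₊ then 1 / ((m : ℝ) * q) else 0 := by split_ifs <;> linarith
    have hi2 : (0 : ℝ) ≤ if k = ⌊f b⌋₊ then 1 / ((m : ℝ) * q) else 0 := by split_ifs <;> linarith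
    have hρ := rr_nonneg m q
    set v := volume.real ((cell m ∩ f ⁻¹' cell k) ∩ Ioo a b) with hv
    have hv0 : 0 ≤ v := measureReal_nonneg
    have hbv : volume.real ((cell m ∩ f ⁻¹' cell k) ∩ (Ioo a b ∩ f ⁻¹' B)) ≤ v := by
      refine measureReal_mono (inter_subset_inter_right _ inter_subset_left) ?_
      exact ((measure_mono inter_subset_right).trans_lt measure_Ioo_lt_top).ne
    have hb0 : 0 ≤ volume.real ((cell m ∩ f ⁻¹' cell k) ∩ (Ioo a b ∩ f ⁻¹' B)) := measureReal_nonneg
    set w' := volume.real ((cell m ∩ f ⁻¹' cell k) ∩ (Ioo a b ∩ f ⁻¹' B)) with hw'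
    have htriv : |w' - D * v| ≤ v := by
      have h3 : 0 ≤ D * v := mul_nonneg hD0 hv0
      have h4 : D * v ≤ 1 * v := mul_le_mul_of_nonneg_right hD1 hv0
      rw [abs_le]
      constructor <;> linarith
    have hδ0 : 0 ≤ δ := (abs_nonneg _).trans (hδ _ le_rfl)
    by_cases hne : ((cell m ∩ f ⁻¹' cell k) ∩ Ioo a b).Nonempty
    · obtain ⟨x0, ⟨hx0c, hx0k⟩, hx0I⟩ := hne
      have hk : ⌊f x0⌋₊ = k := Nat.floor_eq_on_Ico k (f x0) hx0k
      have hfull : cell k ⊆ f '' mid m q := by
        rw [← hk]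
        exact full_cell hq h.mq h.mqq (by linarith [hx0I.1]) (by linarith [hx0I.2])
      have hk2 : m / 2 ≤ k := by
        have h1 : x0 / 2 ≤ f x0 := f_lb (by linarith [hx0c.1])
        have h2 : f x0 < k + 1 := hx0k.2
        have h3 : (m : ℝ) < 2 * (k + 1) := by linarith [hx0c.1]
        have h4 : m < 2 * (k + 1) := by exact_mod_cast h3
        omega
      by_cases hin : mid m q ∩ f ⁻¹' cell k ⊆ Ioo a b
      · have hE : (cell m ∩ f ⁻¹' cell k) ∩ Ioo a b = mid m q ∩ f ⁻¹' cell k := by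
          ext x
          constructor
          · rintro ⟨⟨h1, h2⟩, h3⟩
            exact ⟨hIm h3, h2⟩
          · intro hx
            exact ⟨⟨mid_sub_cell hq hx.1, hx.2⟩, hin hx⟩
        have hEB : (cell m ∩ f ⁻¹' cell k) ∩ (Ioo a b ∩ f ⁻¹' B) =
            (mid m q ∩ f ⁻¹' cell k) ∩ f ⁻¹' B := by
          rw [← inter_assoc, hE]
        have hce := cell_est hq h.mq h.r hfull hB.1
        rw [hw', hEB, hv, hE]
        rw [hv, hE] at hv0
        set e := volume.real (mid m q ∩ f ⁻¹' cell k) with he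
        set z := volume.real (mid m q ∩ f ⁻¹' cell k ∩ f ⁻¹' B) with hz
        have hbb : volume.real (B ∩ cell k) = bb B k := rfl
        rw [hbb] at hce
        have hδk := abs_le.1 (hδ k hk2)
        have hbk0 := bb_nonneg B k
        have hbk1 := bb_le_one B k
        change (1 - 3 * rr m q) * (bb B k * e) ≤ z ∧ z ≤ (1 + 3 * rr m q) * (bb B k * e) at hce
        have g1 : bb B k * e ≤ e := by nlinarith
        have g2 : 0 ≤ bb B k * e := mul_nonneg hbk0 hv0
        have g3 : 3 * rr m q * (bb B k * e) ≤ 3 * rr m q * e :=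
          mul_le_mul_of_nonneg_left g1 (by positivity)
        have g4 : (bb B k - D) * e ≤ δ * e := mul_le_mul_of_nonneg_right hδk.2 hv0
        have g5 : -δ * e ≤ (bb B k - D) * e := mul_le_mul_of_nonneg_right hδk.1 hv0
        have g6 : |z - D * e| ≤ e * (3 * rr m q + δ) := by
          rw [abs_le]
          constructor
          · nlinarith [hce.1]
          · nlinarith [hce.2]
        linarith
      · have hv1 : v ≤ 1 / (m * q) := by
          refine le_trans ?_ (piece_le (k := k) h)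
          refine measureReal_mono ?_ ?_
          · rintro x ⟨⟨h1, h2⟩, h3⟩
            exact ⟨hIm h3, h2⟩
          · exact ((measure_mono inter_subset_left).trans_lt (measure_Icc_lt_top)).ne
        obtain ⟨z, hz, hzI⟩ := not_subset.1 hin
        have hfl : k = ⌊f a⌋₊ ∨ k = ⌊f b⌋₊ := by
          by_cases hza : z ≤ a
          · left
            exact (between h hz.1.1 hza hx0I.1.le (hIm hx0I).2 hz.2 hx0k).symm
          · right
            have hbz : b ≤ z := by
              by_contra hcon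
              exact hzI ⟨not_le.1 hza, not_le.1 hcon⟩
            exact (between h (hIm hx0I).1 hx0I.2.le hbz hz.1.2 hx0k hz.2).symm
        have hpos : 0 ≤ v * (3 * rr m q + δ) := by positivity
        rcases hfl with h1 | h1
        · rw [if_pos h1]; linarith
        · have : (if k = ⌊f b⌋₊ then 1 / ((m : ℝ) * q) else 0) = 1 / (m * q) := if_pos h1
          linarith
    · rw [not_nonempty_iff_eq_empty] at hne
      have hv1 : v = 0 := by rw [hv, hne]; simp
      have hpos : 0 ≤ v * (3 * rr m q + δ) := by positivity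
      linarith
  rw [s_eq hB.1 D hab, e1]
  conv_lhs => rw [e2]
  rw [Finset.mul_sum, ← Finset.sum_sub_distrib]
  refine (Finset.abs_sum_le_sum_abs _ _).trans ((Finset.sum_le_sum hterm).trans ?_)
  rw [Finset.sum_add_distrib, Finset.sum_add_distrib, ← Finset.sum_mul, ← e2]
  have hc0 : 0 < 1 / ((m : ℝ) * q) := by positivity
  have hs : ∀ c : ℕ, ∑ k ∈ Finset.range (2 * m + 3), (if k = c then 1 / ((m : ℝ) * q) else 0) ≤
      1 / (m * q) := by
    intro c
    rw [Finset.sum_ite_eq' (Finset.range (2 * m + 3)) c (fun _ => 1 / ((m : ℝ) * q))]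
    split_ifs <;> linarith
  have h1 := hs ⌊f a⌋₊
  have h2 := hs ⌊f b⌋₊
  have h3 : 2 / ((m : ℝ) * q) = 1 / (m * q) + 1 / (m * q) := by ring
  linarith

end Pool.Agent.U339.CH
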