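import Pool.Agent.U339.CH.Unif

/-!
# Chamberland's map: the intervals in which an invariant set has the wrong proportion, at all scales
-/

set_option autoImplicit false

namespace Pool.Agent.U339.CH

open Real Set MeasureTheory Filter Topology
open Pool.Agent.H934R2.Ch (f df hasDerivAt_f continuous_f continuous_df)
open Pool.Agent.W40.Ch hiding Inv

/-- `x` lies in an interval of length between `H` and `1` with a deviation larger than `ε` times its
length -/
def bad (B : Set ℝ) (D H ε x : ℝ) : Prop :=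
  ∃ a b : ℝ, a < x ∧ x < b ∧ H ≤ b - a ∧ b - a ≤ 1 ∧ ε * (b - a) < |s B D a b|

theorem bad_open (B : Set ℝ) (D H ε : ℝ) : IsOpen {x | bad B D H ε x} := by
  have e : {x | bad B D H ε x} = ⋃ a : ℝ, ⋃ b : ℝ,
      ⋃ (_ : H ≤ b - a ∧ b - a ≤ 1 ∧ ε * (b - a) < |s B D a b|), Ioo a b := by
    ext x
    simp only [mem_ofPred_eq, mem_iUnion, mem_Ioo, exists_prop]
    constructor
    · rintro ⟨a, b, h1, h2, h3, h4, h5⟩
      exact ⟨a, b, ⟨h3, h4, h5⟩, h1, h2⟩
    · rintro ⟨a, b, ⟨h3, h4, h5⟩, h1, h2⟩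
      exact ⟨a, b, h1, h2, h3, h4, h5⟩
  rw [e]
  exact isOpen_iUnion fun a => isOpen_iUnion fun b => isOpen_iUnion fun _ => isOpen_Ioo

theorem bad_mono {B : Set ℝ} {D H H' ε ε' x : ℝ} (hH : H' ≤ H) (hε : ε' ≤ ε) (h : bad B D H ε x) :
    bad B D H' ε' x := by
  obtain ⟨a, b, h1, h2, h3, h4, h5⟩ := h
  refine ⟨a, b, h1, h2, hH.trans h3, h4, lt_of_le_of_lt ?_ h5⟩
  exact mul_le_mul_of_nonneg_right hε (by linarith)

/-- images of intervals -/
theorem image_Ioo {m : ℕ} {q a b : ℝ} (h : OK m q) (ha : m + q ≤ a) (hab : a < b)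
    (hb : b ≤ m + 1 - q) : ∃ α β : ℝ, α < β ∧ f '' Ioo a b = Ioo α β ∧ m * q * (b - a) ≤ β - α ∧
      (m : ℝ) / 2 ≤ α := by
  have hq := h.q0
  have hmq : 0 < (m : ℝ) * q := lt_of_lt_of_le one_pos h.mq
  have hm0 : (0 : ℝ) ≤ m := Nat.cast_nonneg m
  have key : ∀ x y : ℝ, a ≤ x → x < y → y ≤ b → 0 < (-1 : ℝ) ^ m * (f y - f x) := by
    intro x y h1 h2 h3
    have e := f_expand h.q0.le h.mq (by linarith : (m : ℝ) + q ≤ x) h2.le (by linarith)
    exact lt_of_lt_of_le (mul_pos hmq (by linarith)) e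
  have hab2 := f_expand h.q0.le h.mq ha hab.le hb
  have hfa : (m : ℝ) / 2 ≤ f a := le_trans (by linarith) (f_lb (x := a) (by linarith))
  have hfb : (m : ℝ) / 2 ≤ f b := le_trans (by linarith) (f_lb (x := b) (by linarith))
  have hivt := intermediate_value_uIcc (a := a) (b := b) (f := f)
    (continuous_f.continuousOn (s := uIcc a b))
  rw [uIcc_of_le hab.le] at hivt
  have hpos := key a b le_rfl hab le_rfl
  rcases neg_one_pow_eq_or ℝ m with h1 | h1
  · rw [h1] at hab2 hpos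
    refine ⟨f a, f b, by linarith, ?_, by linarith, hfa⟩
    ext y
    constructor
    · rintro ⟨x, hx, rfl⟩
      have k1 := key a x le_rfl hx.1 hx.2.le
      have k2 := key x b hx.1.le hx.2 le_rfl
      rw [h1] at k1 k2
      exact ⟨by linarith, by linarith⟩
    · intro hy
      obtain ⟨x, hx, rfl⟩ := hivt (mem_uIcc.2 (Or.inl ⟨hy.1.le, hy.2.le⟩))
      refine ⟨x, ⟨lt_of_le_of_ne hx.1 ?_, lt_of_le_of_ne hx.2 ?_⟩, rfl⟩
      · rintro rfl
        exact lt_irrefl _ hy.1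
      · rintro rfl
        exact lt_irrefl _ hy.2
  · rw [h1] at hab2 hpos
    refine ⟨f b, f a, by linarith, ?_, by linarith, hfb⟩
    ext y
    constructor
    · rintro ⟨x, hx, rfl⟩
      have k1 := key a x le_rfl hx.1 hx.2.le
      have k2 := key x b hx.1.le hx.2 le_rfl
      rw [h1] at k1 k2
      exact ⟨by linarith, by linarith⟩
    · intro hy
      obtain ⟨x, hx, rfl⟩ := hivt (mem_uIcc.2 (Or.inr ⟨hy.1.le, hy.2.le⟩))
      refine ⟨x, ⟨lt_of_le_of_ne hx.1 ?_, lt_of_le_of_ne hx.2 ?_⟩, rfl⟩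
      · rintro rfl
        exact lt_irrefl _ hy.2
      · rintro rfl
        exact lt_irrefl _ hy.1

theorem ratio {p L P l d ϑ D ε : ℝ} (hp0 : 0 ≤ p) (hpL : p ≤ L) (hL : 0 < L) (hl : 0 < l) (hd : 0 < d)
    (hϑ0 : 0 ≤ ϑ) (hϑ : ϑ ≤ 1 / 4) (h1 : (1 - ϑ) * d * L ≤ l) (h2 : l ≤ (1 + ϑ) * d * L)
    (h3 : (1 - ϑ) * d * p ≤ P) (h4 : P ≤ (1 + ϑ) * d * p) (hb : ε * L < |p - D * L|) :
    (ε - 3 * ϑ) * l < |P - D * l| := by
  have hdpL : 0 ≤ d * p := mul_nonneg hd.le hp0
  have g0 : d * p ≤ d * L := mul_le_mul_of_nonneg_left hpL hd.le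
  have g1 : 2 * ϑ * (d * p) * L ≤ 3 * ϑ * l * L := by
    apply mul_le_mul_of_nonneg_right _ hL.le
    have : 2 * (d * p) ≤ 3 * l := by
      have : (1 - ϑ) * d * L ≥ (3 / 4) * (d * L) := by
        have : 0 ≤ (1 / 4 - ϑ) * (d * L) := mul_nonneg (by linarith) (by positivity)
        nlinarith
      nlinarith
    nlinarith [mul_le_mul_of_nonneg_left this hϑ0]
  have e1 : l * p ≤ (1 + ϑ) * d * L * p := mul_le_mul_of_nonneg_right h2 hp0
  have e2 : (1 - ϑ) * d * L * p ≤ l * p := mul_le_mul_of_nonneg_right h1 hp0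
  have e3 : (1 - ϑ) * d * p * L ≤ P * L := mul_le_mul_of_nonneg_right h3 hL.le
  have e4 : P * L ≤ (1 + ϑ) * d * p * L := mul_le_mul_of_nonneg_right h4 hL.le
  rcases lt_abs.1 hb with h | h
  · rw [lt_abs]
    left
    have h5 : l * (ε * L) < l * (p - D * L) := mul_lt_mul_of_pos_left h hl
    have h6 : (ε - 3 * ϑ) * l * L < (P - D * l) * L := by nlinarith
    exact lt_of_mul_lt_mul_right h6 hL.le
  · rw [lt_abs]
    right
    have h5 : l * (ε * L) < l * (-(p - D * L)) := mul_lt_mul_of_pos_left h hl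
    have h6 : (ε - 3 * ϑ) * l * L < (-(P - D * l)) * L := by nlinarith
    exact lt_of_mul_lt_mul_right h6 hL.le

variable {B : Set ℝ} {D : ℝ}

theorem transfer (h : HD B D) {m : ℕ} {q : ℝ} (hok : OK m q) (hm : 11 ≤ m) {a b ϑ ε : ℝ}
    (ha : m + q ≤ a) (hab : a < b) (hb : b ≤ m + 1 - q) (hϑ : 6 * (b - a) / q ≤ ϑ) (hϑ4 : ϑ ≤ 1 / 4)
    (hbad : ε * (b - a) < |s B D a b|) {α β : ℝ} (hαβ : α < β) (himg : f '' Ioo a b = Ioo α β) :
    (ε - 3 * ϑ) * (β - α) < |s B D α β| := by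
  have hq := hok.q0
  have hmq : 0 < (m : ℝ) * q := lt_of_lt_of_le one_pos hok.mq
  have hm11 : (11 : ℝ) ≤ m := by exact_mod_cast hm
  have hϑ0 : 0 ≤ ϑ := le_trans (div_nonneg (by linarith) hq.le) hϑ
  set x0 := (a + b) / 2 with hx0
  set d := |df x0| with hd
  have hdl : m * q ≤ d := df_mid_abs hok.q0.le hok.mq (by linarith) (by linarith)
  have hd0 : 0 < d := lt_of_lt_of_le hmq hdl
  have hIm : Ioo a b ⊆ mid m q := fun x hx => ⟨by linarith [hx.1], by linarith [hx.2]⟩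
  have hvar : ∀ x ∈ Ioo a b, (1 - ϑ) * d ≤ |df x| ∧ |df x| ≤ (1 + ϑ) * d := by
    intro x hx
    have h1 : |(|df x| - d)| ≤ |df x - df x0| := abs_abs_sub_abs_le_abs_sub _ _
    have h2 := df_var (m := m) (x := x) (y := x0) ⟨by linarith [hx.1], by linarith [hx.2]⟩
      ⟨by linarith, by linarith⟩
    have h3 : |x - x0| ≤ b - a := by
      rw [abs_le]
      constructor <;> linarith [hx.1, hx.2]
    have h4 : (5 * (m : ℝ) + 11) * |x - x0| ≤ (6 * m) * (b - a) :=
      mul_le_mul (by linarith) h3 (abs_nonneg _) (by linarith)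
    have h5 : (6 * (m : ℝ)) * (b - a) = (6 * (b - a) / q) * (m * q) := by field_simp
    have h6 : (6 * (b - a) / q) * (m * q) ≤ ϑ * d := mul_le_mul hϑ hdl hmq.le hϑ0
    have h7 := abs_le.1 (h1.trans (h2.trans (h4.trans (h5.le.trans h6))))
    constructor <;> linarith [h7.1, h7.2]
  have hc : 0 ≤ (1 - ϑ) * d := mul_nonneg (by linarith) hd0.le
  have hinj : InjOn f (Ioo a b) := (f_injOn hok.q0.le hok.mq).mono hIm
  have e1 := vol_image measurableSet_Ioo hinj Ioo_subset_Icc_self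
    (by rw [himg]; exact measure_Ioo_lt_top.ne) hc hvar
  have himB : f '' (Ioo a b ∩ f ⁻¹' B) = B ∩ Ioo α β := by
    rw [image_inter_preimage, himg, inter_comm]
  have e2 := vol_image (measurableSet_Ioo.inter (pre_meas h.inv.1)) (hinj.mono inter_subset_left)
    (inter_subset_left.trans Ioo_subset_Icc_self)
    (by
      rw [himB]
      exact ((measure_mono inter_subset_right).trans_lt measure_Ioo_lt_top).ne) hc
    (fun x hx => hvar x hx.1)
  have hE : Ioo a b ∩ f ⁻¹' B = B ∩ Ioo a b := by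
    ext x
    simp only [mem_inter_iff, mem_preimage]
    constructor
    · rintro ⟨h1, h2⟩
      exact ⟨(h.inv.2 x (by linarith [h1.1])).2 h2, h1⟩
    · rintro ⟨h1, h2⟩
      exact ⟨h2, (h.inv.2 x (by linarith [h2.1])).1 h1⟩
  rw [himg, Real.volume_real_Ioo_of_le hαβ.le, Real.volume_real_Ioo_of_le hab.le] at e1
  rw [himB, hE] at e2
  rw [s_eq h.inv.1 D hab.le] at hbad
  rw [s_eq h.inv.1 D hαβ.le]
  exact ratio measureReal_nonneg (vol_le hab.le) (by linarith) (by linarith) hd0 hϑ0 hϑ4 e1.1 e1.2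
    e2.1 e2.2 hbad

theorem u_exists {m : ℕ} (hm : 191102976 ≤ m) : ∃ u : ℝ, 24 ≤ u ∧ (m : ℝ) = u ^ 6 ∧
    qq m = 1 / u ^ 2 ∧ (m : ℝ) ^ (-(1 / 6) : ℝ) = 1 / u ∧ 1 / u ≤ t m := by
  have hm0 : (0 : ℝ) < m := by exact_mod_cast (by omega : 0 < m)
  set u := (m : ℝ) ^ (1 / 6 : ℝ) with hu
  have hu0 : 0 < u := by positivity
  have h6 : (m : ℝ) = u ^ 6 := by
    rw [hu, ← Real.rpow_natCast, ← Real.rpow_mul hm0.le]
    norm_num
  have hneg : (m : ℝ) ^ (-(1 / 6) : ℝ) = 1 / u := by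
    rw [Real.rpow_neg hm0.le, ← hu, inv_eq_one_div]
  refine ⟨u, ?_, h6, ?_, hneg, ?_⟩
  · have h1 : (24 : ℝ) ^ 6 ≤ u ^ 6 := by
      rw [← h6]
      have : (191102976 : ℝ) ≤ m := by exact_mod_cast hm
      norm_num
      linarith
    exact (pow_le_pow_iff_left₀ (by norm_num) hu0.le (by norm_num)).1 h1
  · unfold qq
    rw [Real.rpow_neg hm0.le, hu, ← Real.rpow_natCast, ← Real.rpow_mul hm0.le, one_div]
    norm_num
  · rw [← hneg]
    unfold t
    apply Real.rpow_le_rpow_of_exponent_le (by exact_mod_cast (by omega : 1 ≤ m))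
    norm_num

/-- one step -/
theorem step_pt (h : HD B D) {m : ℕ} (hm : 191102976 ≤ m) {x H ε : ℝ}
    (hx1 : m + (m : ℝ) ^ (-(1 / 6) : ℝ) ≤ x) (hx2 : x ≤ m + 1 - (m : ℝ) ^ (-(1 / 6) : ℝ))
    (hε : 10 ^ 9 * t m ≤ ε) (hbad : bad B D H ε x) :
    bad B D (m * qq m * H) (ε - 18 * (m : ℝ) ^ (-(1 / 6) : ℝ)) (f x) := by
  obtain ⟨u, hu24, hu6, hq, hθ, hut⟩ := u_exists hm
  have hok := (ok (by omega : 13824 ≤ m)).1
  obtain ⟨a, b, hax, hxb, hH, hb1, hs⟩ := hbad
  have hu0 : 0 < u := by linarith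
  rw [hθ] at hx1 hx2 ⊢
  have ht0 := t_nonneg m
  have hL : 0 < b - a := by linarith
  have hεL : 10 ^ 9 * t m * (b - a) ≤ ε * (b - a) := mul_le_mul_of_nonneg_right hε hL.le
  have hθq : 4 * (1 / u ^ 2) ≤ 1 / u := by
    rw [← mul_div_assoc, div_le_div_iff₀ (by positivity) hu0]
    nlinarith
  by_cases hin : m + 2 * qq m ≤ a ∧ b ≤ m + 1 - 2 * qq m
  · by_cases hlen : 1 / u ^ 3 ≤ b - a
    · exfalso
      have h1 := inner h (by omega) hin.1 (by linarith) hin.2
      have h2 : 2 / ((m : ℝ) * qq m) ≤ 2 * t m * (b - a) := by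
        have e : 2 / ((m : ℝ) * qq m) = 2 * (1 / u) * (1 / u ^ 3) := by
          rw [hq, hu6]
          field_simp
        rw [e]
        exact mul_le_mul (by linarith) hlen (by positivity) (by positivity)
      nlinarith
    · rw [not_le] at hlen
      have hq0 := hok.q0
      have k1 : (m : ℝ) + qq m ≤ a := by linarith [hin.1]
      have k2 : b ≤ (m : ℝ) + 1 - qq m := by linarith [hin.2]
      have k3 : a < b := by linarith
      obtain ⟨α, β, hαβ, himg, hexp, hα⟩ := image_Ioo hok k1 k3 k2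
      have hϑ : 6 * (b - a) / qq m ≤ 6 / u := by
        rw [hq, div_div_eq_mul_div, div_one, div_eq_mul_one_div 6 u]
        have : (b - a) * u ^ 2 ≤ 1 / u := by
          calc (b - a) * u ^ 2 ≤ 1 / u ^ 3 * u ^ 2 := mul_le_mul_of_nonneg_right hlen.le (by positivity)
            _ = 1 / u := by field_simp
        nlinarith
      have hϑ4 : 6 / u ≤ 1 / 4 := by
        rw [div_le_div_iff₀ hu0 (by norm_num)]
        linarith
      have htr := transfer h hok (by omega) k1 k3 k2 hϑ hϑ4 hs hαβ himg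
      have e18 : ε - 3 * (6 / u) = ε - 18 * (1 / u) := by ring
      rw [e18] at htr
      have hfx : f x ∈ Ioo α β := by
        rw [← himg]
        exact ⟨x, ⟨hax, hxb⟩, rfl⟩
      by_cases hl1 : β - α ≤ 1
      · refine ⟨α, β, hfx.1, hfx.2, ?_, hl1, htr⟩
        have : m * qq m * H ≤ m * qq m * (b - a) :=
          mul_le_mul_of_nonneg_left hH (mul_nonneg (Nat.cast_nonneg m) hq0.le)
        linarith
      · exfalso
        rw [not_le] at hl1
        have hn : ((m / 2 : ℕ) : ℝ) ≤ α := by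
          have : ((m / 2 : ℕ) : ℝ) ≤ (m : ℝ) / 2 := Nat.cast_div_le
          linarith
        have h1 := long h (by omega : 1 ≤ m / 2) hn hαβ.le
        have h2 := t_third (by omega : 2 ≤ m) (le_refl (m / 2))
        have ht2 := t_nonneg (m / 2)
        have h3 : (β - α + 2) * (7 * 10 ^ 7 * t (m / 2)) ≤ (3 * (β - α)) * (7 * 10 ^ 7 * (3 * t m)) :=
          mul_le_mul (by linarith) (by linarith) (by positivity) (by linarith)
        have h4 : (10 ^ 9 * t m - 18 * t m) * (β - α) ≤ (ε - 18 * (1 / u)) * (β - α) :=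
          mul_le_mul_of_nonneg_right (by linarith) (by linarith)
        have h5 : 0 ≤ t m * (β - α) := mul_nonneg ht0 (by linarith)
        nlinarith
  · exfalso
    have hlen : 1 / u ≤ 2 * (b - a) := by
      rw [hq] at hin
      rcases not_and_or.1 hin with h1 | h1
      · rw [not_le] at h1
        linarith
      · rw [not_le] at h1
        linarith
    have hcast : ((m - 1 : ℕ) : ℝ) = m - 1 := by
      rw [Nat.cast_sub (by omega)]
      push_cast
      ring
    have hpu : 0 < 1 / u := by positivity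
    have h1 := short h (n := m - 1) (by omega) (a := a) (b := b)
      (by rw [hcast]; linarith) (by linarith) (by linarith)
    have h2 := t_third (m := m) (k := m - 1) (by omega) (by omega)
    have h3 : qq (m - 1) ≤ 3 * qq m := by
      have e := pow_third (p := 1 / 3) (m := m) (k := m - 1) (by norm_num) (by omega) (by omega)
      have e2 : (3 : ℝ) ^ (1 / 3 : ℝ) ≤ 3 := by
        calc (3 : ℝ) ^ (1 / 3 : ℝ) ≤ (3 : ℝ) ^ (1 : ℝ) :=
              Real.rpow_le_rpow_of_exponent_le (by norm_num) (by norm_num)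
          _ = 3 := Real.rpow_one 3
      unfold qq
      exact e.trans (mul_le_mul_of_nonneg_right e2 (by positivity))
    have h4 : qq m ≤ 2 * t m * (b - a) := by
      have e : qq m = (1 / u) * (1 / u) := by
        rw [hq]
        field_simp
      rw [e]
      calc (1 / u) * (1 / u) ≤ t m * (2 * (b - a)) := mul_le_mul hut hlen hpu.le ht0
        _ = _ := by ring
    have h5 : (b - a) * (60000018 * t (m - 1)) ≤ (b - a) * (60000018 * (3 * t m)) :=
      mul_le_mul_of_nonneg_left (by linarith) hL.le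
    have h6 : 0 ≤ t m * (b - a) := mul_nonneg ht0 hL.le
    nlinarith

end Pool.Agent.U339.CH
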