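import Pool.Agent.U339.CH.Loc

/-!
# Chamberland's map: uniform bounds for the deviation of invariant sets in intervals
-/

set_option autoImplicit false

namespace Pool.Agent.U339.CH

open Real Set MeasureTheory Filter Topology
open Pool.Agent.H934R2.Ch (f df hasDerivAt_f continuous_f continuous_df)
open Pool.Agent.W40.Ch hiding Inv

/-- the rate -/
noncomputable def t (m : ℕ) : ℝ := (m : ℝ) ^ (-(1 / 2000) : ℝ)

theorem t_nonneg (m : ℕ) : 0 ≤ t m := by unfold t; positivity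

theorem t_anti {a b : ℕ} (ha : 1 ≤ a) (h : a ≤ b) : t b ≤ t a := by
  unfold t
  apply Real.rpow_le_rpow_of_nonpos (by exact_mod_cast ha) (by exact_mod_cast h)
  norm_num

theorem pow_third {p : ℝ} (hp : 0 ≤ p) {m k : ℕ} (hm : 2 ≤ m) (hk : m / 2 ≤ k) :
    (k : ℝ) ^ (-p) ≤ 3 ^ p * (m : ℝ) ^ (-p) := by
  have h1 : m ≤ 3 * k := by omega
  have h2 : (m : ℝ) / 3 ≤ k := by
    have : (m : ℝ) ≤ 3 * k := by exact_mod_cast h1
    linarith
  have hm0 : (0 : ℝ) < m := by exact_mod_cast (by omega : 0 < m)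
  have h3 : (k : ℝ) ^ (-p) ≤ ((m : ℝ) / 3) ^ (-p) :=
    Real.rpow_le_rpow_of_nonpos (by positivity) h2 (by linarith)
  refine h3.trans (le_of_eq ?_)
  rw [Real.div_rpow hm0.le (by norm_num), Real.rpow_neg (by norm_num : (0 : ℝ) ≤ 3), div_inv_eq_mul,
    mul_comm]

theorem t_third {m k : ℕ} (hm : 2 ≤ m) (hk : m / 2 ≤ k) : t k ≤ 3 * t m := by
  have h1 := pow_third (p := 1 / 2000) (by norm_num) hm hk
  have h2 : (3 : ℝ) ^ (1 / 2000 : ℝ) ≤ 3 := by
    calc (3 : ℝ) ^ (1 / 2000 : ℝ) ≤ (3 : ℝ) ^ (1 : ℝ) :=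
          Real.rpow_le_rpow_of_exponent_le (by norm_num) (by norm_num)
      _ = 3 := Real.rpow_one 3
  unfold t
  refine h1.trans ?_
  exact mul_le_mul_of_nonneg_right h2 (by positivity)

theorem qq_le_t {m : ℕ} (hm : 1 ≤ m) : qq m ≤ t m := by
  unfold qq t
  apply Real.rpow_le_rpow_of_exponent_le (by exact_mod_cast hm)
  norm_num

/-- the hypotheses on the invariant set and its density -/
structure HD (B : Set ℝ) (D : ℝ) : Prop where
  inv : Pool.Agent.W40.Ch.Inv B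
  d0 : 0 ≤ D
  d1 : D ≤ 1
  rate : ∀ m : ℕ, 1 ≤ m → |bb B m - D| ≤ 2 * 10 ^ 7 * t m

theorem exists_D {B : Set ℝ} (hB : Pool.Agent.W40.Ch.Inv B) : ∃ D : ℝ, HD B D := by
  obtain ⟨D, hD, hr⟩ := Pool.Agent.TH237.CH.rate hB
  exact ⟨D, hB, ge_of_tendsto' hD (bb_nonneg B), le_of_tendsto' hD (bb_le_one B), hr⟩

variable {B : Set ℝ} {D : ℝ}

theorem main_coef (h : HD B D) {m : ℕ} (hm : 13824 ≤ m) :
    (∀ k, m / 2 ≤ k → |bb B k - D| ≤ 6 * 10 ^ 7 * t m) ∧
    3 * rr m (qq m) + 6 * 10 ^ 7 * t m ≤ 60000018 * t m := by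
  constructor
  · intro k hk
    have h1 := h.rate k (by omega)
    have h2 := t_third (by omega : 2 ≤ m) hk
    linarith
  · have h1 := (ok hm).2
    have h2 := qq_le_t (by omega : 1 ≤ m)
    linarith

/-- the middle part -/
theorem inner (h : HD B D) {m : ℕ} (hm : 13824 ≤ m) {a b : ℝ} (ha : m + 2 * qq m ≤ a)
    (hab : a ≤ b) (hb : b ≤ m + 1 - 2 * qq m) :
    |s B D a b| ≤ (b - a) * (60000018 * t m) + 2 / (m * qq m) := by
  obtain ⟨h1, h2⟩ := main_coef h hm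
  have h3 := inner_dev h.inv h.d0 h.d1 (ok hm).1 h1 ha hab hb
  have h4 := mul_le_mul_of_nonneg_left h2 (by linarith : 0 ≤ b - a)
  linarith

theorem inv_mq {m : ℕ} (hm : 13824 ≤ m) : 1 / (m * qq m) ≤ qq m := by
  have h := (ok hm).1
  have h1 : 0 < (m : ℝ) * qq m := lt_of_lt_of_le one_pos h.mq
  rw [div_le_iff₀ h1]
  linarith [h.mqq]

theorem qq_small {m : ℕ} (hm : 13824 ≤ m) : qq m ≤ 1 / 8 := by
  have h : (0 : ℝ) < m := by exact_mod_cast (by omega : 0 < m)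
  unfold qq
  rw [Real.rpow_neg h.le, ← one_div]
  apply one_div_le_one_div_of_le (by norm_num)
  have h1 : (8 : ℝ) = ((512 : ℝ)) ^ (1 / 3 : ℝ) := by
    rw [show (512 : ℝ) = 8 ^ (3 : ℝ) by norm_num, ← Real.rpow_mul (by norm_num)]
    norm_num
  rw [h1]
  apply Real.rpow_le_rpow (by norm_num) _ (by norm_num)
  have : (13824 : ℝ) ≤ m := by exact_mod_cast hm
  linarith

/-- a cell -/
theorem incell (h : HD B D) {m : ℕ} (hm : 13824 ≤ m) {a b : ℝ} (ha : (m : ℝ) ≤ a)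
    (hab : a ≤ b) (hb : b ≤ m + 1) :
    |s B D a b| ≤ (b - a) * (60000018 * t m) + 6 * qq m := by
  have hq0 := (ok hm).1.q0
  have hq8 := qq_small hm
  have h2 := inv_mq hm
  have ht := t_nonneg m
  have hnn : 0 ≤ (b - a) * (60000018 * t m) := mul_nonneg (by linarith) (by positivity)
  by_cases c1 : b ≤ m + 2 * qq m
  · have := s_abs h.inv.1 h.d0 h.d1 hab
    linarith
  by_cases c2 : m + 1 - 2 * qq m ≤ a
  · have := s_abs h.inv.1 h.d0 h.d1 hab
    linarith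
  rw [not_le] at c1 c2
  set a1 := max a (m + 2 * qq m) with ha1
  set b1 := min b (m + 1 - 2 * qq m) with hb1
  have l1 : a ≤ a1 := le_max_left _ _
  have l2 : m + 2 * qq m ≤ a1 := le_max_right _ _
  have l3 : b1 ≤ b := min_le_left _ _
  have l4 : b1 ≤ m + 1 - 2 * qq m := min_le_right _ _
  have l5 : a1 ≤ b1 := by
    rw [ha1, hb1, max_le_iff, le_min_iff, le_min_iff]
    exact ⟨⟨hab, c2.le⟩, ⟨c1.le, by linarith⟩⟩
  have l6 : a1 - a ≤ 2 * qq m := by
    rw [ha1]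
    rcases max_cases a (m + 2 * qq m) with h | h <;> rw [h.1] <;> linarith
  have l7 : b - b1 ≤ 2 * qq m := by
    rw [hb1]
    rcases min_cases b (m + 1 - 2 * qq m) with h | h <;> rw [h.1] <;> linarith
  have e1 := s_add h.inv.1 D a a1 b
  have e2 := s_add h.inv.1 D a1 b1 b
  have g1 := s_abs h.inv.1 h.d0 h.d1 l1
  have g2 := s_abs h.inv.1 h.d0 h.d1 l3
  have g3 := inner h hm l2 l5 l4
  have g4 : (b1 - a1) * (60000018 * t m) ≤ (b - a) * (60000018 * t m) :=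
    mul_le_mul_of_nonneg_right (by linarith) (by positivity)
  have g5 : 2 / ((m : ℝ) * qq m) = 2 * (1 / (m * qq m)) := by ring
  have g6 : s B D a b = s B D a a1 + s B D a1 b1 + s B D b1 b := by linarith
  rw [g6]
  refine (abs_add_le _ _).trans ?_
  have := abs_add_le (s B D a a1) (s B D a1 b1)
  linarith

/-- all cells -/
theorem cell_all (h : HD B D) {m : ℕ} (hm : 1 ≤ m) {a b : ℝ} (ha : (m : ℝ) ≤ a)
    (hab : a ≤ b) (hb : b ≤ m + 1) : |s B D a b| ≤ 7 * 10 ^ 7 * t m := by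
  have ht := t_nonneg m
  by_cases hm2 : 13824 ≤ m
  · have h1 := incell h hm2 ha hab hb
    have h2 := qq_le_t hm
    have h3 : (b - a) * (60000018 * t m) ≤ 1 * (60000018 * t m) :=
      mul_le_mul_of_nonneg_right (by linarith) (by positivity)
    linarith
  · have h1 := s_abs h.inv.1 h.d0 h.d1 hab
    have h2 : t 13824 ≤ t m := t_anti hm (by omega)
    have h3 : (1 / 13824 : ℝ) ≤ t 13824 := by
      unfold t
      push_cast
      calc (1 / 13824 : ℝ) = (13824 : ℝ) ^ (-1 : ℝ) := by rw [Real.rpow_neg_one]; norm_num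
        _ ≤ (13824 : ℝ) ^ (-(1 / 2000) : ℝ) := by
          apply Real.rpow_le_rpow_of_exponent_le (by norm_num)
          norm_num
    linarith

/-- long intervals -/
theorem long_aux (h : HD B D) {n : ℕ} (hn : 1 ≤ n) (N : ℕ) : ∀ a b : ℝ, (n : ℝ) ≤ a → a ≤ b →
    b ≤ (⌊a⌋₊ : ℝ) + 1 + N → |s B D a b| ≤ (N + 1) * (7 * 10 ^ 7 * t n) := by
  induction N with
  | zero =>
    intro a b ha hab hb
    have ha0 : 0 ≤ a := le_trans (Nat.cast_nonneg n) ha
    have hfl : n ≤ ⌊a⌋₊ := Nat.le_floor ha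
    have h1 := cell_all h (hn.trans hfl) (Nat.floor_le ha0) hab (by push_cast at hb; linarith)
    have h2 := t_anti hn hfl
    push_cast
    linarith
  | succ N ih =>
    intro a b ha hab hb
    have ha0 : 0 ≤ a := le_trans (Nat.cast_nonneg n) ha
    have hfl : n ≤ ⌊a⌋₊ := Nat.le_floor ha
    have ht := t_nonneg n
    have h2 := t_anti hn hfl
    by_cases hc : b ≤ (⌊a⌋₊ : ℝ) + 1
    · have h1 := cell_all h (hn.trans hfl) (Nat.floor_le ha0) hab hc
      push_cast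
      have : 0 ≤ (N : ℝ) * (7 * 10 ^ 7 * t n) := by positivity
      linarith
    · rw [not_le] at hc
      have hfa : (a : ℝ) ≤ (⌊a⌋₊ : ℝ) + 1 := (Nat.lt_floor_add_one a).le
      have h1 := cell_all h (hn.trans hfl) (Nat.floor_le ha0) hfa le_rfl
      have hcast : (⌊a⌋₊ : ℝ) + 1 = ((⌊a⌋₊ + 1 : ℕ) : ℝ) := by push_cast; ring
      have h3 := ih ((⌊a⌋₊ : ℝ) + 1) b (by linarith) hc.le (by
        rw [hcast, Nat.floor_natCast]
        push_cast at hb ⊢
        linarith)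
      rw [← s_add h.inv.1 D a ((⌊a⌋₊ : ℝ) + 1) b]
      refine (abs_add_le _ _).trans ?_
      push_cast
      linarith

theorem long (h : HD B D) {n : ℕ} (hn : 1 ≤ n) {a b : ℝ} (ha : (n : ℝ) ≤ a) (hab : a ≤ b) :
    |s B D a b| ≤ (b - a + 2) * (7 * 10 ^ 7 * t n) := by
  have ha0 : 0 ≤ a := le_trans (Nat.cast_nonneg n) ha
  have ht := t_nonneg n
  have h1 := long_aux h hn ⌊b - a + 1⌋₊ a b ha hab (by
    have h2 := Nat.lt_floor_add_one a
    have h3 := Nat.lt_floor_add_one (b - a + 1)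
    have h4 : b - a ≤ (⌊b - a + 1⌋₊ : ℝ) := by linarith
    linarith)
  have h2 : ((⌊b - a + 1⌋₊ : ℝ)) ≤ b - a + 1 := Nat.floor_le (by linarith)
  refine h1.trans ?_
  exact mul_le_mul_of_nonneg_right (by linarith) (by positivity)

theorem qq_anti {a b : ℕ} (ha : 1 ≤ a) (h : a ≤ b) : qq b ≤ qq a := by
  unfold qq
  apply Real.rpow_le_rpow_of_nonpos (by exact_mod_cast ha) (by exact_mod_cast h)
  norm_num

/-- short intervals -/
theorem short (h : HD B D) {n : ℕ} (hn : 13824 ≤ n) {a b : ℝ} (ha : (n : ℝ) ≤ a) (hab : a ≤ b)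
    (hb : b ≤ a + 1) : |s B D a b| ≤ (b - a) * (60000018 * t n) + 12 * qq n := by
  have ha0 : 0 ≤ a := le_trans (Nat.cast_nonneg n) ha
  have hfl : n ≤ ⌊a⌋₊ := Nat.le_floor ha
  have h2 := t_anti (by omega : 1 ≤ n) hfl
  have h2q := qq_anti (by omega : 1 ≤ n) hfl
  have hq := qq_nonneg n
  by_cases hc : b ≤ (⌊a⌋₊ : ℝ) + 1
  · have h1 := incell h (hn.trans hfl) (Nat.floor_le ha0) hab hc
    have h3 : (b - a) * (60000018 * t ⌊a⌋₊) ≤ (b - a) * (60000018 * t n) :=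
      mul_le_mul_of_nonneg_left (by linarith) (by linarith)
    linarith
  · rw [not_le] at hc
    have hfa : (a : ℝ) ≤ (⌊a⌋₊ : ℝ) + 1 := (Nat.lt_floor_add_one a).le
    have h1 := incell h (hn.trans hfl) (Nat.floor_le ha0) hfa le_rfl
    have hcast : (⌊a⌋₊ : ℝ) + 1 = ((⌊a⌋₊ + 1 : ℕ) : ℝ) := by push_cast; ring
    have h4 := t_anti (by omega : 1 ≤ n) (by omega : n ≤ ⌊a⌋₊ + 1)
    have h4q := qq_anti (by omega : 1 ≤ n) (by omega : n ≤ ⌊a⌋₊ + 1)
    have h3 := incell h (m := ⌊a⌋₊ + 1) (by omega) (a := ((⌊a⌋₊ + 1 : ℕ) : ℝ)) (b := b) le_rfl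
      (by rw [← hcast]; exact hc.le) (by push_cast; linarith [Nat.floor_le ha0, Nat.lt_floor_add_one a])
    rw [← hcast] at h3
    rw [← s_add h.inv.1 D a ((⌊a⌋₊ : ℝ) + 1) b]
    refine (abs_add_le _ _).trans ?_
    have g1 : ((⌊a⌋₊ : ℝ) + 1 - a) * (60000018 * t ⌊a⌋₊) ≤ ((⌊a⌋₊ : ℝ) + 1 - a) * (60000018 * t n) :=
      mul_le_mul_of_nonneg_left (by linarith) (by linarith)
    have g2 : (b - ((⌊a⌋₊ : ℝ) + 1)) * (60000018 * t (⌊a⌋₊ + 1)) ≤
        (b - ((⌊a⌋₊ : ℝ) + 1)) * (60000018 * t n) :=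
      mul_le_mul_of_nonneg_left (by linarith) (by linarith)
    nlinarith

end Pool.Agent.U339.CH
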